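import Pool.Agent.Helper90.Trs.Stab

/-!
# Project `trs`: the shapes `G_a × G_m`, `G_a × G_m^2` and `G_a × G_m^2` with one derivation
-/

set_option autoImplicit false

namespace Pool.Agent.Helper90.Trs

open MvPolynomial _root_.Trs

/-- the shape condition on `G_a × G_m` -/
theorem shD2 (hJD : S_JorD) (hA : S_Alg1) (hDel : S_Del) (hTor : S_Tor) : S_ShD2 := by
  intro b0 hb0 p hpr hbot hle
  have ht := ne_top hle
  have hw : Wt ![false, true] ![1, b0] ![0, 0] p 1 := by
    rcases wt_one_or (tor := ![false, true]) (p := p) (w1 := ![1, b0]) (w2 := ![0, 0]) with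
      h | ⟨h1, -⟩
    · exact h
    · exfalso
      have i1 := del_dst hJD hDel h1 (i := 0) rfl (by simp) ∅ (by simp) (ind_empty ht)
      have i2 := tor1_dst hJD hTor hpr hle h1 (j := 1) rfl (by simpa using hb0)
        (by intro i hi; fin_cases i <;> simp_all) _ i1
      exact ind_univ hbot (by
        have : (Finset.univ : Finset (Fin 2)) = insert 1 (insert 0 ∅) := by decide +kernel
        rwa [this])
  by_cases h0 : Ind p {0}
  · obtain ⟨J, hJ, hb⟩ := exists_bas {0} h0
    have hJu : J ≠ Finset.univ := fun h => ind_univ hbot (h ▸ hb.1)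
    refine ⟨J, ∅, 1, hb, free_empty _, hw, by norm_num, ?_⟩
    have key : ∀ J : Finset (Fin 2), {0} ⊆ J → J ≠ Finset.univ →
        ∑ i ∈ Jᶜ, ex ![false, true] 59 10 i < 48 * (∅ : Finset (Fin 1)).card + 58 * 1 := by
      decide +kernel
    exact key J hJ hJu
  · have h1 := X_mem hA hpr hle (i := 0) rfl h0
    obtain ⟨J, -, hb⟩ := exists_bas ∅ (ind_empty ht)
    refine ⟨J, {0}, 1, hb, fun g _ hg => ?_, hw, by norm_num, ?_⟩
    · have h2 := stb_add hle hg (i := 0) rfl h1
      rw [gp_apply] at h2
      simp at h2
      funext k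
      fin_cases k
      exact h2
    · have key : ∀ J : Finset (Fin 2),
        ∑ i ∈ Jᶜ, ex ![false, true] 59 10 i < 48 * ({0} : Finset (Fin 1)).card + 58 * 1 := by
        decide +kernel
      exact key J

theorem irr_of {b1 : ℂ} (h : ∀ a b : ℤ, (a : ℂ) + b * b1 = 0 → a = 0 ∧ b = 0) {g : ℤ}
    (hg : Complex.exp ((g : ℂ) * (b1 * (Real.pi * Complex.I))) = 1) : g = 0 := by
  obtain ⟨k, hk⟩ := Complex.exp_eq_one_iff.1 hg
  have hpi : (Real.pi : ℂ) * Complex.I ≠ 0 :=
    mul_ne_zero (by exact_mod_cast Real.pi_ne_zero) Complex.I_ne_zero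
  have h1 : (Real.pi : ℂ) * Complex.I * ((-(2 * k) : ℤ) + (g : ℂ) * b1) = 0 := by
    push_cast
    linear_combination hk
  rcases mul_eq_zero.1 h1 with h2 | h2
  · exact absurd h2 hpi
  · exact (h _ _ h2).2

/-- the shape condition on `G_a × G_m^2` -/
theorem shD1 (hJT : S_JorT) (hJD : S_JorD) (hA : S_Alg1) (hDel : S_Del) (hTor : S_Tor) :
    S_ShD1 := by
  intro b0 b1 hb1 p hpr hbot hle
  have ht := ne_top hle
  have hb1' : b1 ≠ 0 := fun h => one_ne_zero (hb1 0 1 (by simp [h])).2
  have i12 : Dst ![false, true, true] ![0, 1, b1] p → ∀ I : Finset (Fin 3), Disjoint I {1, 2} →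
      Ind p I → Ind p (I ∪ {1, 2}) := fun h I hI hInd =>
    tor_dst hJD hTor hpr hle h {1, 2} (by intro j hj; fin_cases j <;> simp_all)
      (by intro j hj; fin_cases j <;> simp_all)
      (fun g hg => by
        rw [Finset.sum_pair (by decide)] at hg
        have h1 := hb1 (g 1) (g 2) (by simpa using hg)
        intro j hj
        simp only [Finset.mem_insert, Finset.mem_singleton] at hj
        rcases hj with rfl | rfl
        · exact h1.1
        · exact h1.2) I hI hInd
  have hw : Wt ![false, true, true] ![1, 0, b0] ![0, 1, b1] p 1 := by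
    rcases wt_one_or (tor := ![false, true, true]) (p := p) (w1 := ![1, 0, b0])
      (w2 := ![0, 1, b1]) with h | ⟨h1, h2⟩
    · exact h
    · exfalso
      have i1 := del_dst hJD hDel h1 (i := 0) rfl (by simp) ∅ (by simp) (ind_empty ht)
      have i2 := i12 h2 _ (by decide +kernel) i1
      exact ind_univ hbot (by
        have : (Finset.univ : Finset (Fin 3)) = insert 0 ∅ ∪ {1, 2} := by decide +kernel
        rwa [this])
  by_cases h0 : Ind p {0}
  · by_cases h1 : Ind p {0, 1} ∨ Ind p {0, 2}
    · obtain ⟨I, hI, hI2⟩ : ∃ I : Finset (Fin 3), Ind p I ∧ (I = {0, 1} ∨ I = {0, 2}) := by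
        rcases h1 with h | h
        · exact ⟨_, h, Or.inl rfl⟩
        · exact ⟨_, h, Or.inr rfl⟩
      obtain ⟨J, hJ, hb⟩ := exists_bas I hI
      refine ⟨J, ∅, 1, hb, free_empty _, hw, by norm_num, ?_⟩
      have key : ∀ I J : Finset (Fin 3), (I = {0, 1} ∨ I = {0, 2}) → I ⊆ J →
          ∑ i ∈ Jᶜ, ex ![false, true, true] 59 32 i
            < 26 * (∅ : Finset (Fin 1)).card + 58 * 1 := by
        decide +kernel
      exact key I J hI2 hJ
    · rw [not_or] at h1
      obtain ⟨J, hJ, hb⟩ := exists_bas {0} h0
      by_cases h2 : Wt ![false, true, true] ![1, 0, b0] ![0, 1, b1] p 2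
      · refine ⟨J, ∅, 2, hb, free_empty _, h2, by norm_num, ?_⟩
        have key : ∀ J : Finset (Fin 3), {0} ⊆ J →
            ∑ i ∈ Jᶜ, ex ![false, true, true] 59 32 i
              < 26 * (∅ : Finset (Fin 1)).card + 58 * 2 := by
          decide +kernel
        exact key J hJ
      · refine ⟨J, {0}, 1, hb, fun g _ hg => ?_, hw, by norm_num, ?_⟩
        · by_contra hg0
          have e0 : gp ![![(1 : ℂ), Real.pi * Complex.I, b0 + b1 * (Real.pi * Complex.I)]] g 0
              = g 0 := by
            rw [gp_apply]; simp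
          have e2 : gp ![![(1 : ℂ), Real.pi * Complex.I, b0 + b1 * (Real.pi * Complex.I)]] g 2
              = g 0 * (b0 + b1 * (Real.pi * Complex.I)) := by
            rw [gp_apply]; simp
          have hg00 : g 0 ≠ 0 := by
            intro h
            apply hg0
            funext k
            fin_cases k
            exact h
          have hd : ∀ I : Finset (Fin 3), (∀ j ∈ I, (![false, true, true] : Fin 3 → Bool) j = true) →
              Ind p I → Ind p (insert 0 I) := fun I hI hInd =>
            del_stb hJT hDel hg (i := 0) rfl (by rw [e0]; exact_mod_cast hg00) I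
              (fun j hj => Or.inl (hI j hj)) hInd
          have x1 : (X 1 - 1 : Rg 3) ∈ p := by
            refine X_sub_mem hA hpr hle (i := 1) rfl fun h => h1.1 ?_
            exact hd {1} (by simp) h
          have x2 : (X 2 - 1 : Rg 3) ∈ p := by
            refine X_sub_mem hA hpr hle (i := 2) rfl fun h => h1.2 ?_
            exact hd {2} (by simp) h
          by_cases hb0 : b0 = 0
          · have h3 := stb_mul hle hg (i := 2) rfl x2
            rw [e2, hb0, zero_add] at h3
            exact hg00 (irr_of hb1 h3)
          · exact h2 (wt_two_mm hpr hle (i := 1) (j := 2) rfl rfl x1 x2 (by simpa using hb0))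
        · have key : ∀ J : Finset (Fin 3), {0} ⊆ J →
            ∑ i ∈ Jᶜ, ex ![false, true, true] 59 32 i
              < 26 * ({0} : Finset (Fin 1)).card + 58 * 1 := by
            decide +kernel
          exact key J hJ
  · have h1 := X_mem hA hpr hle (i := 0) rfl h0
    have hfree : Free ![false, true, true]
        ![![(1 : ℂ), Real.pi * Complex.I, b0 + b1 * (Real.pi * Complex.I)]] p {0} := by
      intro g _ hg
      have h2 := stb_add hle hg (i := 0) rfl h1
      rw [gp_apply] at h2
      simp at h2
      funext k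
      fin_cases k
      exact h2
    by_cases h2 : Wt ![false, true, true] ![1, 0, b0] ![0, 1, b1] p 2
    · obtain ⟨J, hJ, hb⟩ := exists_bas ∅ (ind_empty ht)
      refine ⟨J, {0}, 2, hb, hfree, h2, by norm_num, ?_⟩
      have key : ∀ J : Finset (Fin 3),
          ∑ i ∈ Jᶜ, ex ![false, true, true] 59 32 i
            < 26 * ({0} : Finset (Fin 1)).card + 58 * 2 := by
        decide +kernel
      exact key J
    · have h3 : Dst ![false, true, true] ![0, 1, b1] p := by
        by_contra h3
        exact h2 (wt_two_add hpr hle (i := 0) rfl h1 (by simp) (by simp) h3)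
      obtain ⟨J, hJ, hb⟩ := exists_bas _ (i12 h3 ∅ (by decide +kernel) (ind_empty ht))
      refine ⟨J, {0}, 1, hb, hfree, hw, by norm_num, ?_⟩
      have key : ∀ J : Finset (Fin 3), ∅ ∪ {1, 2} ⊆ J →
          ∑ i ∈ Jᶜ, ex ![false, true, true] 59 32 i
            < 26 * ({0} : Finset (Fin 1)).card + 58 * 1 := by
        decide +kernel
      exact key J hJ

/-- the shape condition on `G_a × G_m^2`, one derivation -/
theorem shF (hJD : S_JorD) (hA : S_Alg1) (hDel : S_Del) (hTor : S_Tor) (hP : S_Pair)
    (hAP : S_AddPair) : S_ShF := by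
  intro a1 s1 t2 s2 t3 s3 ha1 ht2 hs2 hts hss p hpr hbot hle
  have ht := ne_top hle
  set γ : Fin 3 → Fin 3 → ℂ := ![![a1, 0, s1], ![0, t2, s2], ![0, t3, s3]] with hγ
  have e0 : ∀ g : Fin 3 → ℤ, gp γ g 0 = g 0 * a1 := by
    intro g
    rw [gp_apply, Fin.sum_univ_three, hγ]
    simp
  have e1 : ∀ g : Fin 3 → ℤ, gp γ g 1 = g 1 * t2 + g 2 * t3 := by
    intro g
    rw [gp_apply, Fin.sum_univ_three, hγ]
    simp
  have e2 : ∀ g : Fin 3 → ℤ, gp γ g 2 = g 0 * s1 + g 1 * s2 + g 2 * s3 := by
    intro g
    rw [gp_apply, Fin.sum_univ_three, hγ]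
    simp
  have d0 : Dst ![false, true, true] ![1, -1, 0] p → ∀ I : Finset (Fin 3),
      (∀ j ∈ I, (![false, true, true] : Fin 3 → Bool) j = true) → Ind p I → Ind p (insert 0 I) :=
    fun h I hI hInd => del_dst hJD hDel h (i := 0) rfl (by simp) I
      (fun j hj => Or.inl (hI j hj)) hInd
  have d1 : Dst ![false, true, true] ![1, -1, 0] p → ∀ I : Finset (Fin 3),
      Ind p I → Ind p (insert 1 I) :=
    fun h I hInd => tor1_dst hJD hTor hpr hle h (j := 1) rfl (by simp)
      (by intro i hi; fin_cases i <;> simp_all) I hInd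
  have hss2 : ∀ g h : ℤ, ((g : ℂ) * s2 + h * s3).re = 0 → g = 0 ∧ h = 0 := by
    intro g h hh
    refine hss g h ?_
    simpa using hh
  by_cases h0 : Ind p {0}
  · rcases wt_one_or (tor := ![false, true, true]) (p := p) (w1 := ![1, -1, 0])
      (w2 := ![0, 0, 0]) with hw | ⟨hw, -⟩
    · by_cases h2 : Ind p {0, 2}
      · obtain ⟨J, hJ, hb⟩ := exists_bas _ h2
        refine ⟨J, ∅, 1, hb, free_empty _, hw, by norm_num, ?_⟩
        have key : ∀ J : Finset (Fin 3), {0, 2} ⊆ J →
            ∑ i ∈ Jᶜ, ex ![false, true, true] 59 32 i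
              < 26 * (∅ : Finset (Fin 3)).card + 58 * 1 := by
          decide +kernel
        exact key J hJ
      · obtain ⟨J, hJ, hb⟩ := exists_bas _ h0
        refine ⟨J, {1}, 1, hb, fun g hg0 hg => ?_, hw, by norm_num, ?_⟩
        · have g0 : g 0 = 0 := hg0 0 (by decide)
          have g2 : g 2 = 0 := hg0 2 (by decide)
          obtain ⟨b, hb0, hb1⟩ := hAP 3 _ p hpr hle 0 2 rfl rfl h0 h2
          have h3 := re_zero (hb1 _ (by rw [e0, g0]; simp) hg)
          rw [e2, g0, g2] at h3
          simp at h3
          have g1 : g 1 = 0 := by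
            rcases h3 with h3 | h3 | h3
            · exact absurd h3 hb0
            · exact h3
            · exact absurd h3 hs2
          funext k
          fin_cases k
          · exact g0
          · exact g1
          · exact g2
        · have key : ∀ J : Finset (Fin 3), {0} ⊆ J →
            ∑ i ∈ Jᶜ, ex ![false, true, true] 59 32 i
              < 26 * ({1} : Finset (Fin 3)).card + 58 * 1 := by
            decide +kernel
          exact key J hJ
    · have h01 : Ind p {0, 1} := by
        have := d1 hw _ h0
        rwa [Finset.pair_comm]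
      obtain ⟨J, hJ, hb⟩ := exists_bas _ h01
      have x2 : (X 2 - 1 : Rg 3) ∈ p := by
        refine X_sub_mem hA hpr hle (i := 2) rfl fun h => ?_
        have i1 := d0 hw {2} (by simp) h
        have i2 := d1 hw _ i1
        exact ind_univ hbot (by
          have : (Finset.univ : Finset (Fin 3)) = insert 1 (insert 0 {2}) := by decide +kernel
          rwa [this])
      refine ⟨J, {1, 2}, 0, hb, fun g hg0 hg => ?_, trivial, by norm_num, ?_⟩
      · have g0 : g 0 = 0 := hg0 0 (by decide)
        have h3 := stb_mul_re hle hg (i := 2) rfl x2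
        rw [e2, g0, Int.cast_zero, zero_mul, zero_add] at h3
        obtain ⟨g1, g2⟩ := hss2 _ _ h3
        funext k
        fin_cases k
        · exact g0
        · exact g1
        · exact g2
      · have key : ∀ J : Finset (Fin 3), {0, 1} ⊆ J →
            ∑ i ∈ Jᶜ, ex ![false, true, true] 59 32 i
              < 26 * ({1, 2} : Finset (Fin 3)).card + 58 * 0 := by
            decide +kernel
        exact key J hJ
  · have x0 := X_mem hA hpr hle (i := 0) rfl h0
    have hw : Wt ![false, true, true] ![1, -1, 0] ![0, 0, 0] p 1 := by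
      rcases wt_one_or (tor := ![false, true, true]) (p := p) (w1 := ![1, -1, 0])
        (w2 := ![0, 0, 0]) with hw | ⟨hw, -⟩
      · exact hw
      · exact absurd (d0 hw ∅ (by simp) (ind_empty ht)) h0
    have hg0' : ∀ g : Fin 3 → ℤ, Stb ![false, true, true] p (gp γ g) → g 0 = 0 := by
      intro g hg
      have h1 := stb_add hle hg (i := 0) rfl x0
      rw [e0] at h1
      rcases mul_eq_zero.1 h1 with h2 | h2
      · exact_mod_cast h2
      · exact absurd h2 ha1
    by_cases h12 : Ind p {1, 2}
    · obtain ⟨J, hJ, hb⟩ := exists_bas _ h12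
      refine ⟨J, {0}, 1, hb, fun g hg0 hg => ?_, hw, by norm_num, ?_⟩
      · funext k
        fin_cases k
        · exact hg0' g hg
        · exact hg0 1 (by decide)
        · exact hg0 2 (by decide)
      · have key : ∀ J : Finset (Fin 3), {1, 2} ⊆ J →
            ∑ i ∈ Jᶜ, ex ![false, true, true] 59 32 i
              < 26 * ({0} : Finset (Fin 3)).card + 58 * 1 := by
            decide +kernel
        exact key J hJ
    · by_cases h1 : Ind p {1} ∨ Ind p {2}
      · obtain ⟨I, hI, hI2⟩ : ∃ I : Finset (Fin 3), Ind p I ∧ (I = {1} ∨ I = {2}) := by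
          rcases h1 with h | h
          · exact ⟨_, h, Or.inl rfl⟩
          · exact ⟨_, h, Or.inr rfl⟩
        obtain ⟨J, hJ, hb⟩ := exists_bas I hI
        refine ⟨J, {0, 1}, 1, hb, fun g hg0 hg => ?_, hw, by norm_num, ?_⟩
        · have g0 := hg0' g hg
          have g2 : g 2 = 0 := hg0 2 (by decide)
          have v1 : gp γ g 1 = g 1 * t2 := by rw [e1, g2]; simp
          have v2 : gp γ g 2 = g 1 * s2 := by rw [e2, g0, g2]; simp
          have g1 : g 1 = 0 := by
            rcases hP 3 _ p hpr hle 1 2 (by decide) rfl rfl h12 with h3 | h3 | ⟨a, b, ha, hb', h3⟩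
            · have h4 := stb_mul_re hle hg (i := 1) rfl h3
              rw [v1] at h4
              simp at h4
              exact h4.resolve_right ht2
            · have h4 := stb_mul_re hle hg (i := 2) rfl h3
              rw [v2] at h4
              simp at h4
              exact h4.resolve_right hs2
            · have h4 := re_zero (h3 _ hg)
              rw [v1, v2] at h4
              simp at h4
              by_contra hg1
              have h5 : (a : ℝ) * t2.re + b * s2.re = 0 := by
                have h6 : (g 1 : ℝ) * ((a : ℝ) * t2.re + b * s2.re) = 0 := by linear_combination h4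
                rcases mul_eq_zero.1 h6 with h7 | h7
                · exact absurd (by exact_mod_cast h7) hg1
                · exact h7
              exact ha (hts a b h5).1
          funext k
          fin_cases k
          · exact g0
          · exact g1
          · exact g2
        · have key : ∀ I J : Finset (Fin 3), (I = {1} ∨ I = {2}) → I ⊆ J →
              ∑ i ∈ Jᶜ, ex ![false, true, true] 59 32 i
                < 26 * ({0, 1} : Finset (Fin 3)).card + 58 * 1 := by
              decide +kernel
          exact key I J hI2 hJ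
      · rw [not_or] at h1
        have x2 := X_sub_mem hA hpr hle (i := 2) rfl h1.2
        obtain ⟨J, hJ, hb⟩ := exists_bas ∅ (ind_empty ht)
        refine ⟨J, Finset.univ, 1, hb, fun g _ hg => ?_, hw, by norm_num, ?_⟩
        · have g0 := hg0' g hg
          have h3 := stb_mul_re hle hg (i := 2) rfl x2
          rw [e2, g0, Int.cast_zero, zero_mul, zero_add] at h3
          obtain ⟨g1, g2⟩ := hss2 _ _ h3
          funext k
          fin_cases k
          · exact g0
          · exact g1
          · exact g2
        · have key : ∀ J : Finset (Fin 3),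
              ∑ i ∈ Jᶜ, ex ![false, true, true] 59 32 i
                < 26 * (Finset.univ : Finset (Fin 3)).card + 58 * 1 := by
              decide +kernel
          exact key J

end Pool.Agent.Helper90.Trs
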