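import Pool.Agent.Helper17.Trs.Defs

/-!
# Project `trs`: basic facts on independent sets, stabilizers and weights
-/

set_option autoImplicit false

namespace Pool.Agent.Helper90.Trs

open MvPolynomial _root_.Trs

variable {n m : ℕ} {tor : Fin n → Bool} {p : Ideal (Rg n)}

/-! ## independent sets -/

theorem ind_mono {I J : Finset (Fin n)} (h : Ind p J) (hIJ : I ⊆ J) : Ind p I :=
  fun f hf => h f (hf.trans hIJ)

theorem ind_empty (hp : p ≠ ⊤) : Ind p ∅ := by
  intro f hf hfp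
  have h1 : f.vars = ∅ := Finset.subset_empty.1 hf
  obtain ⟨c, rfl⟩ : ∃ c, f = C c := by
    refine ⟨coeff 0 f, ?_⟩
    have h2 : f.totalDegree = 0 := by
      rw [totalDegree_eq_zero_iff]
      intro m hm x
      by_contra hx
      have : x ∈ f.vars := (mem_vars_iff_mem_support x).2 ⟨m, hm, Finsupp.mem_support_iff.2 hx⟩
      rw [h1] at this
      exact absurd this (Finset.notMem_empty x)
    exact totalDegree_eq_zero_iff_eq_C.1 h2
  by_cases hc : c = 0
  · rw [hc, C_0]
  · exfalso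
    apply hp
    rw [Ideal.eq_top_iff_one]
    have h3 : (C c⁻¹ : Rg n) * C c = 1 := by
      rw [← C_mul, inv_mul_cancel₀ hc, C_1]
    rw [← h3]
    exact Ideal.mul_mem_left _ _ hfp

theorem ind_univ (hp : p ≠ ⊥) : ¬ Ind p Finset.univ := by
  intro h
  apply hp
  rw [Submodule.eq_bot_iff]
  exact fun f hf => h f (Finset.subset_univ _) hf

theorem exists_bas (I : Finset (Fin n)) (hI : Ind p I) : ∃ J, I ⊆ J ∧ Bas p J := by
  classical
  obtain ⟨J, hJ⟩ := Finset.exists_max_image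
    ((Finset.univ : Finset (Finset (Fin n))).filter fun J => I ⊆ J ∧ Ind p J) Finset.card
    ⟨I, by simp [hI]⟩
  simp only [Finset.mem_filter, Finset.mem_univ, true_and] at hJ
  refine ⟨J, hJ.1.1, hJ.1.2, fun i hi hind => ?_⟩
  have h1 := hJ.2 (insert i J) ⟨hJ.1.1.trans (Finset.subset_insert _ _), hind⟩
  rw [Finset.card_insert_of_notMem hi] at h1
  omega

theorem bas_card (hT : S_Tdim) (hp : p.IsPrime) {I J : Finset (Fin n)} (hI : Bas p I)
    (hJ : Bas p J) : I.card = J.card := by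
  have h1 := hT n p hp I hI
  have h2 := hT n p hp J hJ
  have h3 : p.height ≠ ⊤ := by
    intro h
    rw [h, top_add] at h1
    exact absurd h1 (by simp)
  have h4 : p.height + (I.card : ℕ∞) = p.height + (J.card : ℕ∞) := by rw [h1, h2]
  have h5 : (I.card : ℕ∞) = (J.card : ℕ∞) := by
    exact WithTop.add_left_cancel h3 h4
  exact_mod_cast h5

theorem ind_card (hT : S_Tdim) (hp : p.IsPrime) {I J : Finset (Fin n)} (hI : Bas p I)
    (hJ : Ind p J) : J.card ≤ I.card := by
  obtain ⟨J', h1, h2⟩ := exists_bas J hJ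
  rw [bas_card hT hp hI h2]
  exact Finset.card_le_card h1

/-- an independent set with as many elements as a basis is a basis -/
theorem bas_of_card (hT : S_Tdim) (hp : p.IsPrime) {I J : Finset (Fin n)} (hI : Bas p I)
    (hJ : Ind p J) (h : I.card ≤ J.card) : Bas p J := by
  classical
  refine ⟨hJ, fun i hi hind => ?_⟩
  have h1 := ind_card hT hp hI hind
  rw [Finset.card_insert_of_notMem hi] at h1
  omega

/-! ## the neutral element -/

theorem C_mem (hp : p ≤ RingHom.ker (ev tor 0)) {c : ℂ} (h : (C c : Rg n) ∈ p) : c = 0 := by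
  have h1 := hp h
  rw [RingHom.mem_ker] at h1
  have h2 : (ev tor 0) (C c : Rg n) = c := by
    unfold ev
    rw [aeval_C]
    rfl
  have h3 : (ev tor 0) (C c : Rg n) = 0 := h1
  rw [h2] at h3
  exact h3

theorem ne_top (hp : p ≤ RingHom.ker (ev tor 0)) : p ≠ ⊤ := by
  intro h
  have h1 : (C 1 : Rg n) ∈ p := by rw [h]; trivial
  exact one_ne_zero (C_mem hp h1)

theorem X_not_mem (hp : p ≤ RingHom.ker (ev tor 0)) {i : Fin n} (hi : tor i = true) :
    (X i : Rg n) ∉ p := by
  intro h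
  have h1 := hp h
  rw [RingHom.mem_ker] at h1
  have h2 : (ev tor 0) (X i : Rg n) = 1 := by
    unfold ev
    rw [aeval_X]
    simp [hi]
  have h3 : (ev tor 0) (X i : Rg n) = 0 := h1
  rw [h2] at h3
  exact one_ne_zero h3

/-- an additive coordinate which is not independent lies in `p` -/
theorem X_mem (h1 : S_Alg1) (hpr : p.IsPrime) (hp : p ≤ RingHom.ker (ev tor 0)) {i : Fin n}
    (hi : tor i = false) (h : ¬ Ind p {i}) : (X i : Rg n) ∈ p := by
  have h2 := h1 n tor p hpr hp i h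
  rw [hi] at h2
  simpa using h2

/-- a multiplicative coordinate which is not independent -/
theorem X_sub_mem (h1 : S_Alg1) (hpr : p.IsPrime) (hp : p ≤ RingHom.ker (ev tor 0)) {i : Fin n}
    (hi : tor i = true) (h : ¬ Ind p {i}) : (X i - 1 : Rg n) ∈ p := by
  have h2 := h1 n tor p hpr hp i h
  rw [hi] at h2
  simpa using h2

/-- conversely -/
theorem not_ind_of_X_mem {i : Fin n} (h : (X i : Rg n) ∈ p) : ¬ Ind p {i} := by
  intro hI
  have h1 := hI (X i) (by rw [vars_X]) h
  exact X_ne_zero i h1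

theorem not_ind_of_X_sub_mem {i : Fin n} (h : (X i - 1 : Rg n) ∈ p) : ¬ Ind p {i} := by
  intro hI
  have h1 := hI (X i - 1) (by
    refine (vars_sub_subset _).trans ?_
    rw [vars_X, vars_one]
    simp) h
  have h2 : (X i : Rg n) = 1 := sub_eq_zero.1 h1
  have h3 := congrArg (eval fun _ => (0 : ℂ)) h2
  simp at h3

/-! ## stabilizers -/

theorem tr_X_add {v : Fin n → ℂ} {i : Fin n} (hi : tor i = false) :
    tr tor v (X i) = X i + C (v i) := by
  unfold tr
  rw [aeval_X]
  simp [hi]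

theorem tr_X_mul {v : Fin n → ℂ} {i : Fin n} (hi : tor i = true) :
    tr tor v (X i) = C (Complex.exp (v i)) * X i := by
  unfold tr
  rw [aeval_X]
  simp [hi]

theorem stb_add (hp : p ≤ RingHom.ker (ev tor 0)) {v : Fin n → ℂ} (hv : Stb tor p v) {i : Fin n}
    (hi : tor i = false) (h : (X i : Rg n) ∈ p) : v i = 0 := by
  have h1 := (hv _).1 h
  rw [tr_X_add hi] at h1
  exact C_mem hp ((Ideal.add_mem_iff_right p h).1 h1)

theorem stb_mul (hp : p ≤ RingHom.ker (ev tor 0)) {v : Fin n → ℂ} (hv : Stb tor p v) {i : Fin n}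
    (hi : tor i = true) (h : (X i - 1 : Rg n) ∈ p) : Complex.exp (v i) = 1 := by
  have h1 := (hv _).1 h
  rw [map_sub, map_one, tr_X_mul hi] at h1
  have h2 : (C (Complex.exp (v i)) * (X i - 1) : Rg n) ∈ p := Ideal.mul_mem_left _ _ h
  have h3 := Ideal.sub_mem _ h1 h2
  have h4 : (C (Complex.exp (v i)) * X i - 1 - C (Complex.exp (v i)) * (X i - 1) : Rg n)
      = C (Complex.exp (v i) - 1) := by
    rw [C_sub, C_1]
    ring
  rw [h4] at h3
  exact sub_eq_zero.1 (C_mem hp h3)

theorem re_zero {z : ℂ} (h : Complex.exp z = 1) : z.re = 0 := by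
  have h1 := congrArg (fun x => ‖x‖) h
  simp only [Complex.norm_exp, norm_one] at h1
  exact Real.exp_eq_one_iff _ |>.1 h1

theorem stb_mul_re (hp : p ≤ RingHom.ker (ev tor 0)) {v : Fin n → ℂ} (hv : Stb tor p v)
    {i : Fin n} (hi : tor i = true) (h : (X i - 1 : Rg n) ∈ p) : (v i).re = 0 :=
  re_zero (stb_mul hp hv hi h)

theorem free_empty (γ : Fin m → Fin n → ℂ) : Free tor γ p ∅ := by
  intro g hg _
  funext k
  exact hg k (Finset.notMem_empty k)

/-! ## derivations -/

theorem dr_X_add {w : Fin n → ℂ} {i : Fin n} (hi : tor i = false) :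
    dr tor w (X i) = C (w i) := by
  unfold dr
  rw [mkDerivation_X]
  simp [hi]

theorem dr_X_mul {w : Fin n → ℂ} {i : Fin n} (hi : tor i = true) :
    dr tor w (X i) = C (w i) * X i := by
  unfold dr
  rw [mkDerivation_X]
  simp [hi]

theorem dr_X_sub {w : Fin n → ℂ} {i : Fin n} (hi : tor i = true) :
    dr tor w (X i - 1) = C (w i) * X i := by
  rw [map_sub, dr_X_mul hi]
  simp

theorem dr_zero (f : Rg n) : dr tor 0 f = 0 := by
  have h : dr tor (0 : Fin n → ℂ) = 0 := by
    refine MvPolynomial.derivation_ext fun i => ?_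
    unfold dr
    rw [mkDerivation_X]
    simp
  rw [h]
  rfl

theorem dst_zero : Dst tor 0 p := by
  intro f _
  rw [dr_zero]
  exact p.zero_mem

variable {w1 w2 : Fin n → ℂ}

theorem wt_one_or : Wt tor w1 w2 p 1 ∨ (Dst tor w1 p ∧ Dst tor w2 p) := by
  by_cases h : Wt tor w1 w2 p 1
  · exact Or.inl h
  · right
    have h1 : ¬ ∃ z ∈ p, dr tor w1 z ∉ p ∨ dr tor w2 z ∉ p := h
    push Not at h1
    exact ⟨fun f hf => (h1 f hf).1, fun f hf => (h1 f hf).2⟩

/-- two elements of `p` whose Jacobian is not in `p` -/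
theorem wt_two {z z' : Rg n} (hz : z ∈ p) (hz' : z' ∈ p)
    (h : dr tor w1 z * dr tor w2 z' - dr tor w2 z * dr tor w1 z' ∉ p) : Wt tor w1 w2 p 2 :=
  ⟨z, hz, z', hz', h⟩

theorem wt_one_of_two (h : Wt tor w1 w2 p 2) : Wt tor w1 w2 p 1 := by
  obtain ⟨z, hz, z', hz', h1⟩ := h
  rcases (wt_one_or (tor := tor) (p := p) (w1 := w1) (w2 := w2)) with h2 | ⟨h2, h3⟩
  · exact h2
  · exact absurd (Ideal.sub_mem _ (Ideal.mul_mem_right _ _ (h2 z hz))
      (Ideal.mul_mem_right _ _ (h3 z hz))) h1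

/-- Jacobian of two multiplicative coordinates -/
theorem wt_two_mm (hpr : p.IsPrime) (hp : p ≤ RingHom.ker (ev tor 0)) {i j : Fin n}
    (hi : tor i = true) (hj : tor j = true) (hzi : (X i - 1 : Rg n) ∈ p)
    (hzj : (X j - 1 : Rg n) ∈ p) (h : w1 i * w2 j - w2 i * w1 j ≠ 0) : Wt tor w1 w2 p 2 := by
  refine wt_two hzi hzj ?_
  rw [dr_X_sub hi, dr_X_sub hi, dr_X_sub hj, dr_X_sub hj]
  intro h1
  have h2 : (C (w1 i) * X i * (C (w2 j) * X j) - C (w2 i) * X i * (C (w1 j) * X j) : Rg n)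
      = C (w1 i * w2 j - w2 i * w1 j) * (X i * X j) := by
    rw [C_sub, C_mul, C_mul]
    ring
  rw [h2] at h1
  rcases hpr.mem_or_mem h1 with h3 | h3
  · exact h (C_mem hp h3)
  · rcases hpr.mem_or_mem h3 with h4 | h4
    · exact X_not_mem hp hi h4
    · exact X_not_mem hp hj h4

/-- Jacobian of an additive and a multiplicative coordinate -/
theorem wt_two_am (hpr : p.IsPrime) (hp : p ≤ RingHom.ker (ev tor 0)) {i j : Fin n}
    (hi : tor i = false) (hj : tor j = true) (hzi : (X i : Rg n) ∈ p)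
    (hzj : (X j - 1 : Rg n) ∈ p) (h : w1 i * w2 j - w2 i * w1 j ≠ 0) : Wt tor w1 w2 p 2 := by
  refine wt_two hzi hzj ?_
  rw [dr_X_add hi, dr_X_add hi, dr_X_sub hj, dr_X_sub hj]
  intro h1
  have h2 : (C (w1 i) * (C (w2 j) * X j) - C (w2 i) * (C (w1 j) * X j) : Rg n)
      = C (w1 i * w2 j - w2 i * w1 j) * X j := by
    rw [C_sub, C_mul, C_mul]
    ring
  rw [h2] at h1
  rcases hpr.mem_or_mem h1 with h3 | h3
  · exact h (C_mem hp h3)
  · exact X_not_mem hp hj h3

/-- Jacobian of two additive coordinates -/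
theorem wt_two_aa (hp : p ≤ RingHom.ker (ev tor 0)) {i j : Fin n}
    (hi : tor i = false) (hj : tor j = false) (hzi : (X i : Rg n) ∈ p)
    (hzj : (X j : Rg n) ∈ p) (h : w1 i * w2 j - w2 i * w1 j ≠ 0) : Wt tor w1 w2 p 2 := by
  refine wt_two hzi hzj ?_
  rw [dr_X_add hi, dr_X_add hi, dr_X_add hj, dr_X_add hj, ← C_mul, ← C_mul, ← C_sub]
  exact fun h1 => h (C_mem hp h1)

/-- an additive coordinate in `p`, on which only the first derivation acts, and the second
derivation not stable -/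
theorem wt_two_add (hpr : p.IsPrime) (hp : p ≤ RingHom.ker (ev tor 0)) {i : Fin n}
    (hi : tor i = false) (hzi : (X i : Rg n) ∈ p) (h1 : w1 i ≠ 0) (h2 : w2 i = 0)
    (h : ¬ Dst tor w2 p) : Wt tor w1 w2 p 2 := by
  have h3 : ∃ f ∈ p, dr tor w2 f ∉ p := by
    by_contra hc
    push Not at hc
    exact h hc
  obtain ⟨f, hf, hf2⟩ := h3
  refine wt_two hzi hf ?_
  rw [dr_X_add hi, dr_X_add hi, h2, C_0, zero_mul, sub_zero]
  intro h4
  rcases hpr.mem_or_mem h4 with h5 | h5
  · exact h1 (C_mem hp h5)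
  · exact hf2 h5

/-- a multiplicative coordinate in `1 + p`, on which only the first derivation acts, and the
second derivation not stable -/
theorem wt_two_mul (hpr : p.IsPrime) (hp : p ≤ RingHom.ker (ev tor 0)) {i : Fin n}
    (hi : tor i = true) (hzi : (X i - 1 : Rg n) ∈ p) (h1 : w1 i ≠ 0) (h2 : w2 i = 0)
    (h : ¬ Dst tor w2 p) : Wt tor w1 w2 p 2 := by
  have h3 : ∃ f ∈ p, dr tor w2 f ∉ p := by
    by_contra hc
    push Not at hc
    exact h hc
  obtain ⟨f, hf, hf2⟩ := h3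
  refine wt_two hzi hf ?_
  rw [dr_X_sub hi, dr_X_sub hi, h2, C_0, zero_mul, zero_mul, sub_zero]
  intro h4
  rcases hpr.mem_or_mem h4 with h5 | h5
  · rcases hpr.mem_or_mem h5 with h6 | h6
    · exact h1 (C_mem hp h6)
    · exact X_not_mem hp hi h6
  · exact hf2 h5

/-- the same with the roles of the derivations exchanged -/
theorem wt_two_symm (h : Wt tor w2 w1 p 2) : Wt tor w1 w2 p 2 := by
  obtain ⟨z, hz, z', hz', h1⟩ := h
  refine ⟨z, hz, z', hz', fun h2 => h1 ?_⟩
  have h3 := Ideal.neg_mem_iff _ |>.2 h2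
  convert h3 using 1
  ring

end Pool.Agent.Helper90.Trs
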