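import Pool.Agent.Helper17.Trs.Defs

/-!
# Project `trs`: Hermite–Lindemann and a case of Baker's theorem from the main criterion
-/

set_option autoImplicit false

namespace Pool.Agent.Helper90.Trs

open MvPolynomial _root_.Trs

theorem hl_of_main (hM : S_Main) (hS : S_ShD2) : S_HL := by
  intro b hb hb0 he
  refine hM 2 1 ![false, true] ![![1, b]] ![1, b] ![0, 0] ![b, -1] ?_ ?_ ?_ ?_ ?_ ?_ ?_ 60 59 10 48 58
    (by norm_num) (by norm_num) (by norm_num) (by decide +kernel) (hS b hb0)
  · intro h
    have h1 := congrFun h 1
    simp at h1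
  · intro k
    fin_cases k
    simp [Fin.sum_univ_two]
  · simp [Fin.sum_univ_two]
  · simp [Fin.sum_univ_two]
  · intro k i
    fin_cases k
    fin_cases i
    · simpa using isAlgebraic_one
    · simpa using he
  · intro i
    fin_cases i
    · simpa using isAlgebraic_one
    · simpa using hb
  · intro i
    fin_cases i
    · simpa using isAlgebraic_zero
    · simpa using isAlgebraic_zero

theorem gs_of_main (hM : S_Main) (hS : S_ShD1) : S_GS := by
  intro b0 b1 hb0 hb1 hirr he
  refine hM 3 1 ![false, true, true]
    ![![1, Real.pi * Complex.I, b0 + b1 * (Real.pi * Complex.I)]] ![1, 0, b0] ![0, 1, b1]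
    ![b0, b1, -1] ?_ ?_ ?_ ?_ ?_ ?_ ?_ 60 59 32 26 58
    (by norm_num) (by norm_num) (by norm_num) (by decide +kernel) (hS b0 b1 hirr)
  · intro h
    have h1 := congrFun h 2
    simp at h1
  · intro k
    fin_cases k
    simp [Fin.sum_univ_three]
  · simp [Fin.sum_univ_three]
  · simp [Fin.sum_univ_three]
  · intro k i
    fin_cases k
    fin_cases i
    · simpa using isAlgebraic_one
    · simpa [Complex.exp_pi_mul_I] using (isAlgebraic_one (R := ℚ) (A := ℂ)).neg
    · simpa using he
  · intro i
    fin_cases i
    · simpa using isAlgebraic_one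
    · simpa using isAlgebraic_zero
    · simpa using hb0
  · intro i
    fin_cases i
    · simpa using isAlgebraic_zero
    · simpa using isAlgebraic_one
    · simpa using hb1

end Pool.Agent.Helper90.Trs
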