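import Pool.Agent.Helper90.Trs.Base

/-!
# Project `trs`: consequences of stability under a derivation or a translation
-/

set_option autoImplicit false

namespace Pool.Agent.Helper90.Trs

open MvPolynomial _root_.Trs

variable {n m : ℕ} {tor : Fin n → Bool} {p : Ideal (Rg n)}

/-- stability under a derivation with a nonzero additive coordinate -/
theorem del_dst (hJ : S_JorD) (hD : S_Del) {w : Fin n → ℂ} (h : Dst tor w p) {i : Fin n}
    (hi : tor i = false) (hwi : w i ≠ 0) (I : Finset (Fin n))
    (hI : ∀ j ∈ I, tor j = true ∨ w j = 0) (hInd : Ind p I) : Ind p (insert i I) := by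
  refine hD n tor p (addPart tor w) (hJ n tor p w h).1 (fun j hj => ?_) i hi ?_ I (fun j hj => ?_)
    hInd
  · unfold addPart; simp [hj]
  · unfold addPart; simpa [hi] using hwi
  · unfold addPart
    rcases hI j hj with h1 | h1
    · simp [h1]
    · simp [h1]

/-- stability under a translation with a nonzero additive coordinate -/
theorem del_stb (hJ : S_JorT) (hD : S_Del) {v : Fin n → ℂ} (h : Stb tor p v) {i : Fin n}
    (hi : tor i = false) (hvi : v i ≠ 0) (I : Finset (Fin n))
    (hI : ∀ j ∈ I, tor j = true ∨ v j = 0) (hInd : Ind p I) : Ind p (insert i I) := by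
  refine hD n tor p (addPart tor v) (hJ n tor p v h).1 (fun j hj => ?_) i hi ?_ I (fun j hj => ?_)
    hInd
  · unfold addPart; simp [hj]
  · unfold addPart; simpa [hi] using hvi
  · unfold addPart
    rcases hI j hj with h1 | h1
    · simp [h1]
    · simp [h1]

/-- stability under a derivation, the torus coordinates `J` -/
theorem tor_dst (hJ : S_JorD) (hTor : S_Tor) (hpr : p.IsPrime) (hp : p ≤ RingHom.ker (ev tor 0))
    {w : Fin n → ℂ} (h : Dst tor w p) (J : Finset (Fin n)) (hJt : ∀ j ∈ J, tor j = true)
    (hJ0 : ∀ j, j ∉ J → tor j = true → w j = 0)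
    (hind : ∀ g : Fin n → ℤ, ∑ j ∈ J, (g j : ℂ) * w j = 0 → ∀ j ∈ J, g j = 0)
    (I : Finset (Fin n)) (hIJ : Disjoint I J) (hInd : Ind p I) : Ind p (I ∪ J) := by
  refine hTor n tor p hpr hp (mulPart tor w) (hJ n tor p w h).2 J hJt (fun j hj => ?_)
    (fun g hg => hind g ?_) I hIJ hInd
  · unfold mulPart
    by_cases h1 : tor j = true
    · simp [hJ0 j hj h1]
    · simp [h1]
  · rw [← hg]
    refine Finset.sum_congr rfl fun j hj => ?_
    unfold mulPart
    simp [hJt j hj]

/-- stability under a derivation, a single torus coordinate -/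
theorem tor1_dst (hJ : S_JorD) (hTor : S_Tor) (hpr : p.IsPrime) (hp : p ≤ RingHom.ker (ev tor 0))
    {w : Fin n → ℂ} (h : Dst tor w p) {j : Fin n} (hj : tor j = true) (hwj : w j ≠ 0)
    (hJ0 : ∀ i, i ≠ j → tor i = true → w i = 0) (I : Finset (Fin n)) (hInd : Ind p I) :
    Ind p (insert j I) := by
  by_cases hjI : j ∈ I
  · rwa [Finset.insert_eq_of_mem hjI]
  · have h1 := tor_dst hJ hTor hpr hp h {j} (by simpa using hj)
      (fun i hi => hJ0 i (by simpa using hi)) (fun g hg => by
        simp only [Finset.sum_singleton] at hg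
        rcases mul_eq_zero.1 hg with h2 | h2
        · simpa using h2
        · exact absurd h2 hwj) I (by simpa using hjI) hInd
    rwa [Finset.union_comm, ← Finset.insert_eq] at h1

theorem gp_apply (γ : Fin m → Fin n → ℂ) (g : Fin m → ℤ) (i : Fin n) :
    gp γ g i = ∑ k, (g k : ℂ) * γ k i := by
  unfold gp
  rw [Finset.sum_apply]
  rfl

end Pool.Agent.Helper90.Trs
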